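import Pool.Agent.Lib.SZ.Defs
import Pool.Agent.Lib.CX.Defs
import Pool.Agent.Lib.BCH.KApi

/-! Comparison with the working definitions. -/

noncomputable section

open Set Function MeasureTheory
open scoped Manifold ContDiff InnerProductSpace

namespace Pool.Agent.Lib.SZ

section An

variable {G E : Type} [Group G] [NormedAddCommGroup E] [NormedSpace ℝ E]

theorem isTw_iff (g : G) (T : E →L[ℝ] E) (A : BCO.V G E →L[ℝ] BCO.V G E) :
    IsTw g T (A : Op G E) ↔ A = BCO.tw g T :=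
  ⟨fun h => BCO.op_ext h, fun h => h ▸ fun _ _ => rfl⟩

theorem gen_eq {B : Type} [NormedRing B] [NormedAlgebra ℝ B] {S : Set B} (A : Subalgebra ℝ B)
    (hA : (A : Set B) = closure (Submodule.span ℝ S)) : gen S = A := by
  refine le_antisymm (Subalgebra.topologicalClosure_minimal (Algebra.adjoin_le fun x hx => ?_)
    (hA ▸ isClosed_closure)) fun x hx => ?_
  · exact hA ▸ subset_closure (Submodule.subset_span hx)
  · have h : x ∈ closure (Submodule.span ℝ S : Set B) := hA ▸ hx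
    exact closure_mono (Algebra.span_le_adjoin ℝ S) h

theorem RA_eq : RA G E = BCO.RA G E := by
  have h : {A : Op G E | ∃ (g : G) (T : E →L[ℝ] E), IsTw g T A} =
      {A : BCO.V G E →L[ℝ] BCO.V G E | ∃ g T, A = BCO.tw g T} :=
    Set.ext fun A => exists_congr fun g => exists_congr fun T => isTw_iff g T A
  rw [RA, h]
  exact gen_eq (B := BCO.V G E →L[ℝ] BCO.V G E) (BCO.RA G E) rfl

theorem KK_eq : KK G E = (CX.KK G E : Set (BCO.V G E →L[ℝ] BCO.V G E)) := by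
  have h : {A : Op G E | ∃ (g : G) (T : E →L[ℝ] E), IsCompactOperator T ∧ IsTw g T A} =
      {A : BCO.V G E →L[ℝ] BCO.V G E | ∃ (g : G) (T : E →L[ℝ] E),
        IsCompactOperator T ∧ A = BCO.tw g T} :=
    Set.ext fun A => exists_congr fun g => exists_congr fun T => and_congr_right fun _ =>
      isTw_iff g T A
  rw [KK, h]
  rfl

theorem blk_apply {r : ℕ} (a : BCO.V G E →L[ℝ] BCO.V G E) (q : Matrix (Fin r) (Fin r) (CX.Cr G))
    (ξ : BCO.V G (E × (Fin r → ℝ))) (g : G) :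
    CX.blk a q ξ g = (a (BCO.amp G (.fst ℝ E _) ξ) g, fun i => ∑ j,
      (q i j).1 (BCO.amp G (.proj j ∘L .snd ℝ E (Fin r → ℝ)) ξ) g) := by
  have h : CX.blk a q ξ g = (a (BCO.amp G (.fst ℝ E _) ξ) g, 0) + ∑ i, ∑ j,
      ((0 : E), Pi.single i ((q i j).1 (BCO.amp G (.proj j ∘L .snd ℝ E (Fin r → ℝ)) ξ) g)) := by
    rw [CX.blk, _root_.add_apply, lp.coeFn_add, Pi.add_apply, BCO.sum_apply']
    congr 1
    exact Finset.sum_congr rfl fun i _ => BCO.sum_apply' _ _ _ _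
  rw [h]
  ext k
  · simp [Prod.fst_sum]
  · simp [Prod.snd_sum, Finset.sum_apply, Pi.single_apply]

theorem isBlk_iff {r : ℕ} (a : BCO.V G E →L[ℝ] BCO.V G E) (q : Matrix (Fin r) (Fin r) (CX.Cr G))
    (A : BCO.V G (E × (Fin r → ℝ)) →L[ℝ] BCO.V G (E × (Fin r → ℝ))) :
    IsBlk (G := G) a (fun i j => (q i j).1) A ↔ A = CX.blk a q := by
  refine ⟨fun h => BCO.op_ext fun ξ g => ?_, fun h ξ ξ₀ η hξ g => ?_⟩
  · rw [blk_apply]
    exact h ξ (BCO.amp G (.fst ℝ E _) ξ)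
      (fun j => BCO.amp G (.proj j ∘L .snd ℝ E (Fin r → ℝ)) ξ) (fun _ => rfl) g
  · have h1 : BCO.amp G (.fst ℝ E _) ξ = ξ₀ := lp.ext (funext fun g => congrArg Prod.fst (hξ g))
    have h2 : ∀ j, BCO.amp G (.proj j ∘L .snd ℝ E (Fin r → ℝ)) ξ = η j := fun j =>
      lp.ext (funext fun g => congrFun (congrArg Prod.snd (hξ g)) j)
    have h3 := blk_apply a q ξ g
    simp only [h1, h2] at h3
    subst h
    exact h3

theorem isFred_iff (a b c : BCO.V G E →L[ℝ] BCO.V G E) : IsFred (G := G) a b c ↔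
    ∃ x ∈ BCO.RA G E, ∃ y ∈ BCO.RA G E, x * y = a ∧ y * x = b ∧ x - c ∈ CX.KK G E := by
  have h : IsFred (G := G) a b c ↔ ∃ x ∈ RA G E, ∃ y ∈ RA G E, x * y = a ∧ y * x = b ∧
    x - (show Op G E from c) ∈ KK G E := Iff.rfl
  rw [h, RA_eq, KK_eq]
  rfl

theorem isInd_iff (e P : BCO.V G E →L[ℝ] BCO.V G E) (z : BCH.K0 (CX.Cr G)) :
    IsInd (G := G) (R := CX.Cr G) Subtype.val e P z ↔ CX.IsInd e P z := by
  constructor
  · rintro ⟨r, p, q, a, b, c, h1, h2, h3, h4, h5⟩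
    obtain rfl := (isBlk_iff P p.1 a).1 h1
    obtain rfl := (isBlk_iff e q.1 b).1 h2
    obtain rfl := (isBlk_iff (P * e) 0 c).1 h3
    obtain ⟨x, hx, y, hy, k1, k2, k3⟩ := (isFred_iff _ _ _).1 h4
    refine ⟨r, p.1, q.1, p.2, q.2, x, hx, y, hy, k1, k2, k3, ?_⟩
    rw [BCH.cls_eq_mk p, BCH.cls_eq_mk q]
    exact h5
  · rintro ⟨r, p, q, hp, hq, x, hx, y, hy, k1, k2, k3, h5⟩
    refine ⟨r, ⟨p, hp⟩, ⟨q, hq⟩, _, _, _, (isBlk_iff P p _).2 rfl, (isBlk_iff e q _).2 rfl,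
      (isBlk_iff (P * e) 0 _).2 rfl, (isFred_iff _ _ _).2 ⟨x, hx, y, hy, k1, k2, k3⟩, ?_⟩
    rw [BCH.cls_eq_mk ⟨p, hp⟩, BCH.cls_eq_mk ⟨q, hq⟩] at h5
    exact h5

end An

variable {n N : ℕ}

/-- The working form of a spinor module. -/
def toSp (σ : Spinor (Eu n) (Eu N)) : CX.Spinor n N := ⟨σ.c, σ.skew⟩

/-- The compact form of a spinor module. -/
def ofSp (σ : CX.Spinor n N) : Spinor (Eu n) (Eu N) := ⟨σ.c, σ.skew⟩

/-- The working form of a manifold. -/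
def toSM (X : SM (Eu n)) : CX.SM n :=
  @CX.SM.mk n X.M X.top X.t2 X.ch X.mf X.U X.F X.s X.isOpen X.cover X.smooth X.spin X.smc X.cocycle

/-- The compact form of a manifold. -/
def ofSM (X : CX.SM n) : SM (Eu n) :=
  @SM.mk (Eu n) _ _ X.M X.top X.t2 X.ch X.mf X.U X.F X.s X.isOpen X.cover X.smooth X.spin X.smc
    X.cocycle

theorem cc_eq (X : SM (Eu n)) (a : ℕ) : (X.F a).cc bv = (toSM X).cc a := by
  funext i j k x
  exact (EuclideanSpace.inner_single_left k (1 : ℝ) _).trans (by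
    rw [RCLike.conj_to_real, one_mul]; rfl)

theorem ga_eq (X : SM (Eu n)) (a : ℕ) : (X.F a).ga bv = (toSM X).ga a := by
  funext i j k x
  rw [Frame.ga, cc_eq]
  rfl

theorem riem_eq (X : SM (Eu n)) (a : ℕ) : (X.F a).riem bv = (toSM X).riem a := by
  funext i j k l x
  rw [Frame.riem, cc_eq, ga_eq]
  rfl

theorem scal_eq (X : SM (Eu n)) (x : X.M) : SM.scal bv X x = (toSM X).scal x := by
  rw [SM.scal, riem_eq]
  rfl

theorem dirac_eq (X : SM (Eu n)) (σ : Spinor (Eu n) (Eu N)) (a : ℕ) :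
    (X.F a).dirac bv σ = (toSM X).dirac (toSp σ) a := by
  funext ψ x
  rw [Frame.dirac, ga_eq]
  rfl

theorem isProd_iff {p q : ℕ} (h : p + q = n) (X : SM (Eu p)) (Y : SM (Eu q)) (Z : SM (Eu n))
    (ψ : X.M × Y.M → Z.M) (O : Set (X.M × Y.M)) :
    IsProd h X Y Z ψ O ↔ CX.IsProd h (toSM X) (toSM Y) (toSM Z) ψ O := and_assoc

variable {G : Type} [Group G] {m : ℕ}

/-- The working form of a cycle. -/
def toSing (x : Sing G m) : CX.Sing G m :=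
  ⟨toSM x.X, toSM x.N, x.j, x.f, x.cpt, (isProd_iff _ _ _ _ _ _).1 x.prod, x.core_cpt, x.closed,
    x.cont, x.cyl⟩

/-- The compact form of a cycle. -/
def ofSing (x : CX.Sing G m) : Sing G m :=
  ⟨ofSM x.X, ofSM x.N, x.j, x.f, x.cpt, (isProd_iff _ _ _ _ _ _).2 x.prod, x.core_cpt, x.closed,
    x.cont, x.cyl⟩

theorem psc_iff (x : Sing G m) : x.Psc ↔ ∀ y, 0 < (toSing x).N.scal y :=
  forall_congr' fun y => by rw [scal_eq]; rfl

theorem isGraph_iff (x : Sing G m) (σ : Spinor (Eu (m + 1)) (Eu N)) (μ : Measure x.X.M)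
    (e : Op G (L2 (Eu N) μ)) :
    IsGraph bv x.X x.f σ μ e ↔ (toSing x).IsGraph (toSp σ) μ e := by
  refine forall_congr' fun a => forall_congr' fun i => forall_congr' fun g =>
    forall_congr' fun ψ => ?_
  rw [dirac_eq]
  exact ⟨fun h h1 h2 h3 => (h ⟨h1, h2, h3⟩).elim fun ξ hξ => ⟨ξ, _, rfl, hξ⟩,
    fun h h1 => (h h1.1 h1.2.1 h1.2.2).elim fun ξ ⟨η, h2, h3⟩ => ⟨ξ, by subst h2; exact h3⟩⟩

theorem isNeg_iff (X : SM (Eu n)) (σ : Spinor (Eu n) (Eu N)) (μ : Measure X.M)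
    (P : BCO.V G (Lp (CX.Eu N) 2 μ) →L[ℝ] BCO.V G (Lp (CX.Eu N) 2 μ)) :
    IsNeg (G := G) bv X σ μ P ↔
      P = BCO.amp G (((1 / 2 : ℝ) • (1 - (toSp σ).gr)).compLpL 2 μ) := by
  refine ⟨fun h => BCO.op_ext fun ξ γ => Lp.ext ((h ξ γ).trans ?_), fun h ξ γ => ?_⟩
  · exact (ContinuousLinearMap.coeFn_compLpL ((1 / 2 : ℝ) • (1 - (toSp σ).gr)) (ξ γ)).symm
  · subst h
    exact ContinuousLinearMap.coeFn_compLpL ((1 / 2 : ℝ) • (1 - (toSp σ).gr)) (ξ.ev γ)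

theorem isIndexOf_iff (x : Sing G m) (σ : Spinor (Eu (m + 1)) (Eu N)) (z : BCH.K0 (CX.Cr G)) :
    IsIndexOf bv x.X x.f σ (R := CX.Cr G) Subtype.val z ↔ (toSing x).IsIndex (toSp σ) z := by
  refine exists_congr fun μ => and_congr ⟨fun h x₀ a => h a x₀, fun h a x₀ => h x₀ a⟩
    (exists_congr fun e => ⟨fun ⟨P, h1, h2, h3, h4⟩ => ?_, fun ⟨h1, h2, h4⟩ => ?_⟩)
  · obtain rfl := (isNeg_iff x.X σ μ P).1 h3
    exact ⟨(RA_eq (G := G) (E := L2 (Eu N) μ)).le h1, (isGraph_iff x σ μ e).1 h2, 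
      (isInd_iff (E := L2 (Eu N) μ) _ _ z).1 h4⟩
  · exact ⟨_, (RA_eq (G := G) (E := L2 (Eu N) μ)).ge h1, (isGraph_iff x σ μ e).2 h2,
      (isNeg_iff x.X σ μ _).2 rfl, (isInd_iff (E := L2 (Eu N) μ) _ _ z).2 h4⟩

/-- Transport of a statement about the reduced group algebra. -/
theorem transport (p : Subalgebra ℝ (Op G ℝ) → Prop) (h : p (BCO.RA G ℝ)) : p (RA G ℝ) :=
  RA_eq (G := G) (E := ℝ) ▸ h

end Pool.Agent.Lib.SZ
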