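import Pool.Agent.Lib.SZ.Defs

/-! The Stolz group of positive scalar curvature bordism with the Bott manifold inverted. -/

noncomputable section

open Set Function

namespace Pool.Agent.Lib.SZ

variable {G : Type} [Group G] {m : ℕ}

/-- The compact manifold with boundary. -/
def Sing.core (x : Sing G m) : Set x.X.M := (x.j '' {z | 1 < tc z.2})ᶜ

/-- The open neighbourhood `t < 2` of the core. -/
def Sing.nbd (x : Sing G m) : Set x.X.M := (x.j '' {z | 2 ≤ tc z.2})ᶜ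

/-- Bordism: `x.core` (outgoing) and `y.core` (incoming) lie in the boundary of a compact spin
manifold `w.core`, the rest `V` of that boundary has positive scalar curvature and product collars,
and the maps to `BG` extend. -/
def Bord (x y : Sing G m) : Prop :=
  ∃ (w : Sing G (m + 1)) (α : x.X.M → w.N.M) (β : y.X.M → w.N.M),
    IsProd rfl x.X (flat (Eu 1)) w.X (fun z : x.X.M × Eu 1 => w.j (α z.1, z.2))
      {z : x.X.M × Eu 1 | z.1 ∈ x.nbd ∧ 0 < tc z.2} ∧
    IsProd rfl y.X (flat (Eu 1)) w.X (fun z : y.X.M × Eu 1 => w.j (β z.1, -z.2))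
      {z : y.X.M × Eu 1 | z.1 ∈ y.nbd ∧ tc z.2 < 0} ∧
    Disjoint (α '' x.nbd) (β '' y.nbd) ∧
    (∀ p, p ∉ α '' x.core → p ∉ β '' y.core → 0 < w.N.scal bv p) ∧
    (∀ p ∈ x.core, w.f (w.j (α p, bv 0)) = x.f p) ∧ ∀ p ∈ y.core, w.f (w.j (β p, bv 0)) = y.f p

/-- `y` is the product of `x` with `B`. -/
def IsBott (B : SM (Eu 8)) {m' : ℕ} (x : Sing G m) (y : Sing G m') : Prop :=
  ∃ (h : m + 1 + 8 = m' + 1) (ψ : x.X.M × B.M → y.X.M), IsProd h x.X B y.X ψ univ ∧
    Surjective ψ ∧ ∀ z, (ψ z ∈ y.core ↔ z.1 ∈ x.core) ∧ y.f (ψ z) = x.f z.1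

variable (G) in
/-- The triples `(L, f, h)` of dimension `8 k + 8`: the boundary has positive scalar curvature. -/
def Cyc : Type 1 := Σ k : ℕ, {x : Sing G (8 * k + 7) // x.Psc}

/-- The generating relations: bordism, and the product with `B`. -/
def Step (B : SM (Eu 8)) (x y : Cyc G) : Prop :=
  (∃ k a b, x = ⟨k, a⟩ ∧ y = ⟨k, b⟩ ∧ Bord a.1 b.1) ∨ IsBott B x.2.1 y.2.1

variable (G) in
/-- The direct limit `R_0(BG)[B⁻¹]` of `R_8 → R_16 → ⋯`. -/
def RB (B : SM (Eu 8)) : Type 1 := Quot (Step (G := G) B)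

variable (G) in
/-- The Stolz conjecture for `G` in degree `0`, as a statement about sets: the higher index
induces a bijection from `R_0(BG)[B⁻¹]` to `KO_0(C*_r G)`. -/
def Stolz (S : ∀ k, Spinor (Eu (8 * k + 7 + 1)) (Eu (16 ^ (k + 1)))) (B : SM (Eu 8)) : Prop :=
  ∃ θ : RB G B → K0 (Cr G), Bijective θ ∧
    ∀ (x : Cyc G) z, x.2.1.IsIndex (S x.1) z ↔ θ (Quot.mk _ x) = z

end Pool.Agent.Lib.SZ
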