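import Pool.Agent.Lib.SZ.Bridge
import Pool.Agent.Lib.SZ.Stolz

/-! Comparison of the two forms of the Stolz statement. -/

noncomputable section

open Set Function

namespace Pool.Agent.Lib.SZ

variable {G : Type} [Group G] {m : ℕ}

theorem bord_iff (x y : Sing G m) : Bord x y ↔ CX.Bord (toSing x) (toSing y) := by
  constructor
  · rintro ⟨w, α, β, h1, h2, h3, h4, h5⟩
    exact ⟨toSing w, α, β, (isProd_iff _ _ _ _ _ _).1 h1, (isProd_iff _ _ _ _ _ _).1 h2, h3,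
      fun p a b => (scal_eq w.N p) ▸ h4 p a b, h5⟩
  · rintro ⟨w, α, β, h1, h2, h3, h4, h5⟩
    exact ⟨ofSing w, α, β, (isProd_iff _ _ _ _ _ _).2 h1, (isProd_iff _ _ _ _ _ _).2 h2, h3,
      fun p a b => (h4 p a b).trans_eq (scal_eq (ofSing w).N p).symm, h5⟩

theorem isBott_iff (B : SM (Eu 8)) {m' : ℕ} (x : Sing G m) (y : Sing G m') :
    IsBott B x y ↔ CX.IsBott (toSM B) (toSing x) (toSing y) :=
  exists_congr fun _ => exists_congr fun _ => and_congr (isProd_iff _ _ _ _ _ _) Iff.rfl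

/-- The working form of a triple. -/
def toCyc (x : Cyc G) : CX.Cyc G := ⟨x.1, toSing x.2.1, (psc_iff _).1 x.2.2⟩

/-- The compact form of a triple. -/
def ofCyc (x : CX.Cyc G) : Cyc G := ⟨x.1, ofSing x.2.1, (psc_iff _).2 x.2.2⟩

theorem step_iff (B : SM (Eu 8)) (x y : Cyc G) : Step B x y ↔
    (∃ k a b, toCyc x = ⟨k, a⟩ ∧ toCyc y = ⟨k, b⟩ ∧ CX.Bord a.1 b.1) ∨
      CX.IsBott (toSM B) (toCyc x).2.1 (toCyc y).2.1 := by
  refine or_congr ⟨?_, ?_⟩ (isBott_iff B _ _)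
  · rintro ⟨k, a, b, rfl, rfl, h⟩
    exact ⟨k, _, _, rfl, rfl, (bord_iff _ _).1 h⟩
  · rintro ⟨k, a, b, h1, h2, h⟩
    exact ⟨k, _, _, congrArg ofCyc h1, congrArg ofCyc h2, (bord_iff _ _).2 h⟩

/-- The two direct limits agree. -/
def rbEquiv (B : SM (Eu 8)) : CX.RB G (toSM B) ≃ RB G B where
  toFun := Quot.map ofCyc fun x y h => (step_iff B (ofCyc x) (ofCyc y)).2 h
  invFun := Quot.map toCyc fun x y h => (step_iff B x y).1 h
  left_inv r := by induction r using Quot.ind; rfl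
  right_inv r := by induction r using Quot.ind; rfl

theorem stolz_imp (S : ∀ k, Spinor (Eu (8 * k + 7 + 1)) (Eu (16 ^ (k + 1)))) (B : SM (Eu 8))
    (h : ¬ CX.Stolz G (fun k => toSp (S k)) (toSM B)) : ¬ Stolz G S B := by
  refine transport (fun A => ¬ ∃ θ : RB G B → K0 A, Bijective θ ∧ ∀ (x : Cyc G) z,
    IsIndexOf bv x.2.1.X x.2.1.f (S x.1) (R := A) Subtype.val z ↔ θ (Quot.mk _ x) = z) ?_
  rintro ⟨θ, h1, h2⟩
  exact h ⟨θ ∘ rbEquiv B, h1.comp (rbEquiv B).bijective, fun x z =>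
    (isIndexOf_iff (ofCyc x).2.1 (S x.1) z).symm.trans (h2 (ofCyc x) z)⟩

end Pool.Agent.Lib.SZ
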