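import Mathlib

/-! Spin manifolds with cylindrical ends and the higher index of the Dirac operator. -/

noncomputable section

open Set Function MeasureTheory CliffordAlgebra
open scoped Manifold ContDiff InnerProductSpace

namespace Pool.Agent.Lib.SZ

/-! ### `K0` of a ring -/

/-- The block sum of two square matrices. -/
def bsum {R : Type} [Zero R] {k l : ℕ} (a : Matrix (Fin k) (Fin k) R)
    (b : Matrix (Fin l) (Fin l) R) : Matrix (Fin (k + l)) (Fin (k + l)) R :=
  Matrix.reindex finSumFinEquiv finSumFinEquiv (Matrix.fromBlocks a 0 0 b)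

section K0

variable (R : Type) [Ring R]

/-- Idempotent `k × k` matrices. -/
def Idem (k : ℕ) : Type := {e : Matrix (Fin k) (Fin k) R // e * e = e}

/-- The free abelian group on the idempotent matrices. -/
abbrev Fr : Type := FreeAbelianGroup (Σ k, Idem R k)

/-- The relations `[x y] = [y x]` and `[e ⊕ f] = [e] + [f]`. -/
def K0Rel : Set (Fr R) :=
  {z | (∃ (k l : ℕ) (e : Idem R k) (f : Idem R l) (x : Matrix (Fin k) (Fin l) R)
        (y : Matrix (Fin l) (Fin k) R), x * y = e.1 ∧ y * x = f.1 ∧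
        z = .of ⟨k, e⟩ - .of ⟨l, f⟩) ∨
      (∃ (k l : ℕ) (e : Idem R k) (f : Idem R l) (g : Idem R (k + l)), g.1 = bsum e.1 f.1 ∧
        z = .of ⟨k + l, g⟩ - .of ⟨k, e⟩ - .of ⟨l, f⟩)}

/-- `K0` of a unital ring: the Grothendieck group of equivalence classes of idempotent matrices. -/
def K0 : Type := Fr R ⧸ AddSubgroup.closure (K0Rel R)

instance : AddCommGroup (K0 R) := QuotientAddGroup.Quotient.addCommGroup _

variable {R}

/-- The class of an idempotent matrix. -/
def K0.mk {k : ℕ} (e : Idem R k) : K0 R := QuotientAddGroup.mk (FreeAbelianGroup.of ⟨k, e⟩)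

end K0

/-! ### The reduced group algebra and the Mishchenko-Fomenko index -/

section Gen

variable {B : Type} [NormedRing B] [NormedAlgebra ℝ B]

/-- The closed unital subalgebra generated by a set. -/
def gen (S : Set B) : Subalgebra ℝ B := (Algebra.adjoin ℝ S).topologicalClosure

/-- The closed linear span of a set. -/
def cspan (S : Set B) : Set B := closure (Submodule.span ℝ S)

end Gen

section Index

variable (G E : Type) [NormedAddCommGroup E]

/-- Square summable functions on `G` with values in `E`. -/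
def V : Type := lp (fun _ : G => E) 2

instance : NormedAddCommGroup (V G E) := lp.normedAddCommGroup

variable {G E} in
/-- The value at `g`. -/
def V.ev (ξ : V G E) (g : G) : E := Subtype.val ξ g

variable [NormedSpace ℝ E]

instance : NormedSpace ℝ (V G E) := lp.instNormedSpace

/-- Bounded operators on `ℓ²(G, E)`. -/
def Op : Type := V G E →L[ℝ] V G E

instance : NormedRing (Op G E) := ContinuousLinearMap.toNormedRing

instance : NormedAlgebra ℝ (Op G E) := ContinuousLinearMap.toNormedAlgebra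

variable {G E}

/-- The operator applied to a vector. -/
def Op.app (A : Op G E) : V G E → V G E := DFunLike.coe (F := V G E →L[ℝ] V G E) A

variable [Group G]

/-- `A` is the operator `λ(g) ⊗ T`. -/
def IsTw (g : G) (T : E →L[ℝ] E) (A : Op G E) : Prop :=
  ∀ ξ x, (A.app ξ).ev x = T (ξ.ev (g⁻¹ * x))

variable (G E) in
/-- The closed algebra generated by the operators `λ(g) ⊗ T`. -/
def RA : Subalgebra ℝ (Op G E) := gen {A | ∃ g T, IsTw g T A}

variable (G E) in
/-- The closed span of the operators `λ(g) ⊗ T`, `T` compact. -/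
def KK : Set (Op G E) :=
  cspan {A | ∃ (g : G) (T : E →L[ℝ] E), IsCompactOperator T ∧ IsTw g T A}

omit [Group G] in
/-- `A` is the operator `a ⊕ q` on `ℓ²(G, E ⊕ ℝ^r)`. -/
def IsBlk {r : ℕ} (a : Op G E) (q : Fin r → Fin r → Op G ℝ) (A : Op G (E × (Fin r → ℝ))) : Prop :=
  ∀ (ξ : V G (E × (Fin r → ℝ))) (ξ₀ : V G E) (η : Fin r → V G ℝ),
    (∀ g, ξ.ev g = (ξ₀.ev g, fun i => (η i).ev g)) →
    ∀ g, (A.app ξ).ev g = ((a.app ξ₀).ev g, fun i => ∑ j, ((q i j).app (η j)).ev g)

/-- A perturbation `x` of `c` by an element of `KK` is an isomorphism from `im b` to `im a`. -/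
def IsFred (a b c : Op G E) : Prop :=
  ∃ x ∈ RA G E, ∃ y ∈ RA G E, x * y = a ∧ y * x = b ∧ x - c ∈ KK G E

variable {R : Type} [Ring R] (ρ : R → Op G ℝ)

/-- `z = [p] - [q]` is the Mishchenko-Fomenko index of `P e : im e → im P`: a compact perturbation
of `P e ⊕ 0` is an isomorphism from `im e ⊕ im q` to `im P ⊕ im p`. The ring `R` acts by `ρ`. -/
def IsInd (e P : Op G E) (z : K0 R) : Prop :=
  ∃ (r : ℕ) (p q : Idem R r) (a b c : Op G (E × (Fin r → ℝ))),
    IsBlk P (fun i j => ρ (p.1 i j)) a ∧ IsBlk e (fun i j => ρ (q.1 i j)) b ∧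
    IsBlk (P * e) (fun _ _ => 0) c ∧ IsFred a b c ∧ z = K0.mk p - K0.mk q

end Index

section L2

variable {M : Type} [MeasurableSpace M] (S : Type) [NormedAddCommGroup S] (μ : Measure M)

/-- Square integrable functions on `M` with values in `S`. -/
def L2 : Type := Lp S 2 μ

instance : NormedAddCommGroup (L2 S μ) := Lp.instNormedAddCommGroup

instance [NormedSpace ℝ S] : NormedSpace ℝ (L2 S μ) := Lp.instNormedSpace

variable {S μ} in
/-- A function that represents the class. -/
def L2.fn (ξ : L2 S μ) : M → S := AEEqFun.cast (Subtype.val ξ)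

end L2

/-! ### Clifford algebras -/

section Geo

variable {E S : Type} [NormedAddCommGroup E] [InnerProductSpace ℝ E] [NormedAddCommGroup S]
  [InnerProductSpace ℝ S]

variable (E) in
/-- The negative definite form `-|v|²`. -/
def Qn : QuadraticForm ℝ E := -LinearMap.BilinMap.toQuadraticMap (innerₗ E)

variable (E) in
/-- The Clifford algebra, with `v² = -|v|²`. -/
def Cl : Type := CliffordAlgebra (Qn E)

instance : Ring (Cl E) := CliffordAlgebra.instRing _

instance : Algebra ℝ (Cl E) := CliffordAlgebra.instAlgebra _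

/-- A vector as an element of the Clifford algebra. -/
def vec (v : E) : Cl E := ι (Qn E) v

/-- The homomorphism of Clifford algebras induced by an isometry. -/
def Cl.map (i : (Qn E).Isometry (Qn S)) (s : Cl E) : Cl S := CliffordAlgebra.map i s

/-- Smoothness of a map into the (finite dimensional) Clifford algebra. -/
def SmC {W H Z : Type} [NormedAddCommGroup W] [NormedSpace ℝ W] [TopologicalSpace H]
    (I : ModelWithCorners ℝ W H) [TopologicalSpace Z] [ChartedSpace H Z] (s : Z → Cl E)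
    (O : Set Z) : Prop :=
  ∀ l : Cl E →ₗ[ℝ] ℝ, ContMDiffOn I 𝓘(ℝ, ℝ) ∞ (fun z => l (s z)) O

/-- `s` lies in the spin group and `s (κ v) s⁻¹ = A v` for all `v`. -/
def Covers {W : Type} (s : Cl E) (κ A : W → E) : Prop :=
  s ∈ (spinGroup (Qn E) : Set (CliffordAlgebra (Qn E))) ∧ ∀ v, vec (A v) * s = s * vec (κ v)

variable (E S) in
/-- A real spinor module: Clifford multiplication by vectors is skew. -/
structure Spinor where
  c : Cl E →ₐ[ℝ] (S →L[ℝ] S)
  skew : ∀ v u w, ⟪c (vec v) u, w⟫_ℝ = -⟪u, c (vec v) w⟫_ℝ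

/-- Clifford multiplication. -/
def Spinor.mul (σ : Spinor E S) (s : Cl E) (u : S) : S := σ.c s u

variable {n : ℕ} (b : Fin n → E)

/-- The grading operator: the action of the volume element `b_1 ⋯ b_n`. -/
def Spinor.gr (σ : Spinor E S) : S → S := σ.mul (List.ofFn fun i => vec (b i)).prod

/-! ### Riemannian spin manifolds -/

section Frames

variable {M : Type} [TopologicalSpace M] [ChartedSpace E M]

variable (E M) in
/-- A field of linear frames. -/
def Frame : Type := ∀ x : M, E ≃L[ℝ] TangentSpace 𝓘(ℝ, E) x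

/-- The vector field with constant coordinates `v`. -/
def Frame.fld (F : Frame E M) (v : E) (x : M) : TangentSpace 𝓘(ℝ, E) x := F x v

/-- The coordinates of a tangent vector. -/
def Frame.co (F : Frame E M) (x : M) (w : TangentSpace 𝓘(ℝ, E) x) : E := (F x).symm w

/-- The frame is smooth on `U`. -/
def Frame.Smooth [IsManifold 𝓘(ℝ, E) ∞ M] (F : Frame E M) (U : Set M) : Prop :=
  ∀ v, ContMDiffOn 𝓘(ℝ, E) 𝓘(ℝ, E).tangent ∞
    (fun x => (⟨x, F.fld v x⟩ : TangentBundle 𝓘(ℝ, E) M)) U

/-- The derivative along the vector field with coordinates `v`. -/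
def Frame.dd {W : Type} [NormedAddCommGroup W] [NormedSpace ℝ W] (F : Frame E M) (v : E)
    (φ : M → W) (x : M) : W := mfderiv 𝓘(ℝ, E) 𝓘(ℝ, W) φ x (F.fld v x)

/-- The structure constants `⟨[e_i, e_j], e_k⟩`. -/
def Frame.cc (F : Frame E M) (i j k : Fin n) (x : M) : ℝ :=
  ⟪b k, F.co x (VectorField.mlieBracket 𝓘(ℝ, E) (F.fld (b i)) (F.fld (b j)) x)⟫_ℝ

/-- The Levi-Civita coefficients `⟨∇_{e_i} e_j, e_k⟩` (Koszul formula). -/
def Frame.ga (F : Frame E M) (i j k : Fin n) (x : M) : ℝ :=
  (F.cc b i j k x - F.cc b j k i x + F.cc b k i j x) / 2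

/-- The curvature `⟨R(e_i, e_j) e_k, e_l⟩`. -/
def Frame.riem (F : Frame E M) (i j k l : Fin n) (x : M) : ℝ :=
  F.dd (b i) (F.ga b j k l) x - F.dd (b j) (F.ga b i k l) x +
    ∑ m, (F.ga b j k m x * F.ga b i m l x - F.ga b i k m x * F.ga b j m l x -
      F.cc b i j m x * F.ga b m k l x)

/-- The spin Dirac operator in the frame `F`. -/
def Frame.dirac (F : Frame E M) (σ : Spinor E S) (ψ : M → S) (x : M) : S :=
  ∑ i, σ.mul (vec (b i)) (F.dd (b i) ψ x + (1 / 4 : ℝ) •
    ∑ j, ∑ k, F.ga b i j k x • σ.mul (vec (b j) * vec (b k)) (ψ x))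

/-- The frame read in the chart at `x₀`. -/
def Frame.inChart (F : Frame E M) (x₀ x : M) : E →L[ℝ] E :=
  (mfderiv 𝓘(ℝ, E) 𝓘(ℝ, E) (chartAt E x₀) x).comp (F x).toContinuousLinearMap

/-- On `U`, the measure `μ` is the volume for which the frame is unimodular. -/
def Frame.IsVol [MeasureSpace E] [MeasurableSpace M] (F : Frame E M) (U : Set M)
    (μ : Measure M) : Prop :=
  ∀ x₀ (A : Set M), MeasurableSet A → A ⊆ (chartAt E x₀).source ∩ U →
    μ A = ∫⁻ y in chartAt E x₀ '' A,
      ENNReal.ofReal |ContinuousLinearMap.det (F.inChart x₀ ((chartAt E x₀).symm y))|⁻¹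

variable (E) in
/-- `ψ` is smooth with compact support in `O`. -/
def IsTest (ψ : M → S) (O : Set M) : Prop :=
  ContMDiff 𝓘(ℝ, E) 𝓘(ℝ, S) ∞ ψ ∧ HasCompactSupport ψ ∧ tsupport ψ ⊆ O

end Frames

variable (E) in
/-- A Riemannian spin manifold without boundary: smooth local frames `F a` on open sets `U a`
(they define the metric, for which they are orthonormal, and the orientation), whose transition
functions are covered by a smooth cocycle `s` with values in the spin group. -/
structure SM where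
  M : Type
  [top : TopologicalSpace M]
  [t2 : T2Space M]
  [ch : ChartedSpace E M]
  [mf : IsManifold 𝓘(ℝ, E) ∞ M]
  U : ℕ → Set M
  F : ℕ → Frame E M
  s : ℕ → ℕ → M → Cl E
  isOpen : ∀ a, IsOpen (U a)
  cover : ∀ x, ∃ a, x ∈ U a
  smooth : ∀ a, (F a).Smooth (U a)
  spin : ∀ a b, ∀ x ∈ U a ∩ U b, Covers (s a b x) id fun v => (F a).co x ((F b).fld v x)
  smc : ∀ a b, SmC 𝓘(ℝ, E) (s a b) (U a ∩ U b)
  cocycle : ∀ a b c, ∀ x ∈ U a ∩ U b ∩ U c, s a b x * s b c x = s a c x

attribute [instance] SM.top SM.t2 SM.ch SM.mf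

instance (X : SM E) : MeasurableSpace X.M := borel X.M

variable (E) in
/-- The standard frame of Euclidean space. -/
def stdFrame : Frame E E := fun _ => ContinuousLinearEquiv.refl ℝ E

variable (E) in
/-- Euclidean space with its standard frame. -/
def flat : SM E where
  M := E
  U _ := univ
  F _ := stdFrame E
  s _ _ _ := 1
  isOpen _ := isOpen_univ
  cover _ := ⟨0, trivial⟩
  smooth _ v := by
    rw [contMDiffOn_univ]
    exact contMDiff_vectorSpace_iff_contDiff.2 contDiff_const
  spin _ _ _ _ := ⟨(spinGroup (Qn E)).one_mem, fun _ => (mul_one _).trans (one_mul _).symm⟩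
  smc _ _ _ := contMDiffOn_const
  cocycle _ _ _ _ _ := one_mul _

/-- The first frame defined at a point. -/
def SM.fr (X : SM E) (x : X.M) : ℕ := sInf {a | x ∈ X.U a}

/-- The scalar curvature. -/
def SM.scal (X : SM E) (x : X.M) : ℝ := ∑ i, ∑ j, (X.F (X.fr x)).riem b i j j i x

section Prod

variable {E₁ E₂ : Type} [NormedAddCommGroup E₁] [InnerProductSpace ℝ E₁] [NormedAddCommGroup E₂]
  [InnerProductSpace ℝ E₂]

section

variable {M₁ M₂ M : Type} [TopologicalSpace M₁] [ChartedSpace E₁ M₁] [TopologicalSpace M₂]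
  [ChartedSpace E₂ M₂] [TopologicalSpace M] [ChartedSpace E M]

variable (E₁ E₂ E) in
/-- `ψ` is an injective local diffeomorphism on `O`. -/
def IsEmb (ψ : M₁ × M₂ → M) (O : Set (M₁ × M₂)) : Prop :=
  IsLocalDiffeomorphOn (𝓘(ℝ, E₁).prod 𝓘(ℝ, E₂)) 𝓘(ℝ, E) ∞ ψ O ∧ InjOn ψ O

variable (E₁ E₂) in
/-- Smoothness on a subset of a product. -/
def SmP (s : M₁ × M₂ → Cl E) (O : Set (M₁ × M₂)) : Prop := SmC (𝓘(ℝ, E₁).prod 𝓘(ℝ, E₂)) s O

/-- The differential of `ψ` at `z` in the given frames. -/
def dmap (F₁ : Frame E₁ M₁) (F₂ : Frame E₂ M₂) (F : Frame E M) (ψ : M₁ × M₂ → M) (z : M₁ × M₂)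
    (v : E₁ × E₂) : E :=
  F.co (ψ z) (mfderiv (𝓘(ℝ, E₁).prod 𝓘(ℝ, E₂)) 𝓘(ℝ, E) ψ z (F₁.fld v.1 z.1, F₂.fld v.2 z.2))

end

/-- On the open set `O`, the map `ψ` is an isometric spin embedding of the product `X × Y`, where
`E = i₁ E₁ ⊕ i₂ E₂`. -/
def IsProdOf (i₁ : (Qn E₁).Isometry (Qn E)) (i₂ : (Qn E₂).Isometry (Qn E)) (X : SM E₁) (Y : SM E₂)
    (Z : SM E) (ψ : X.M × Y.M → Z.M) (O : Set (X.M × Y.M)) : Prop :=
  IsEmb E E₁ E₂ ψ O ∧ ∃ t : ℕ × ℕ × ℕ → X.M × Y.M → Cl E,
    let D : ℕ × ℕ × ℕ → Set (X.M × Y.M) := fun a =>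
      {z ∈ O | z.1 ∈ X.U a.1 ∧ z.2 ∈ Y.U a.2.1 ∧ ψ z ∈ Z.U a.2.2}
    (∀ a, SmP E₁ E₂ (t a) (D a)) ∧
    (∀ a, ∀ z ∈ D a, Covers (t a z) (fun v : E₁ × E₂ => i₁ v.1 + i₂ v.2)
      (dmap (X.F a.1) (Y.F a.2.1) (Z.F a.2.2) ψ z)) ∧
    ∀ a b, ∀ z ∈ D a ∩ D b, Z.s a.2.2 b.2.2 (ψ z) * t b z =
      t a z * (Cl.map i₁ (X.s a.1 b.1 z.1) * Cl.map i₂ (Y.s a.2.1 b.2.1 z.2))

end Prod

/-! ### The classifying space -/

/-- The standard simplex on the vertices `0, …, n - 1`. -/
def Sx (n : ℕ) : Set (ℕ → ℝ) :=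
  {t | (∀ i, 0 ≤ t i) ∧ (∀ i, n ≤ i → t i = 0) ∧ ∑ i ∈ Finset.range n, t i = 1}

/-- The disjoint union of the simplices `(n, g)`. -/
def Pt (G : Type) : Type := Σ σ : ℕ × (ℕ → G), Sx σ.1

instance (G : Type) : TopologicalSpace (Pt G) := instTopologicalSpaceSigma

variable {G : Type} [Group G]

/-- Two points `∑ t_i g_i` of the join differ by the right action of `G`. -/
def Rel (p q : Pt G) : Prop :=
  p.2.1 = q.2.1 ∧
    ∀ i j, p.2.1 i ≠ 0 → p.2.1 j ≠ 0 → p.1.2 i * (p.1.2 j)⁻¹ = q.1.2 i * (q.1.2 j)⁻¹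

variable (G) in
/-- The classifying space: the infinite join `G * G * ⋯` with the weak (CW) topology, modulo the
right action of `G`. A point `∑ t_i g_i` of the join is a point `t` of the simplex `(n, g)`. -/
def BG : Type := Quot (Rel (G := G))

instance : TopologicalSpace (BG G) := instTopologicalSpaceQuot

/-- The join coordinates. -/
def BG.t : BG G → ℕ → ℝ := Quot.lift (fun p : Pt G => p.2.1) fun _ _ h => h.1

open Classical in
/-- The transition cocycle `g_i g_j⁻¹` of the universal covering. -/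
def BG.co (i j : ℕ) : BG G → G :=
  Quot.lift (fun p : Pt G => if p.2.1 i ≠ 0 ∧ p.2.1 j ≠ 0 then p.1.2 i * (p.1.2 j)⁻¹ else 1)
    fun p q h => by
      rw [← h.1]
      split_ifs with h'
      · exact h.2 i j h'.1 h'.2
      · rfl

/-- The first join coordinate that does not vanish. -/
def BG.ix (p : BG G) : ℕ := sInf {i | p.t i ≠ 0}

/-! ### The higher index -/

variable (X : SM E) (f : X.M → BG G) (σ : Spinor E S)

open Classical in
/-- The spinor field on the pulled back `G`-covering that lives on the sheet `g_i = g` and has the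
components `φ` in the frame `a`, written in the trivialisation by the first frame and the first
join coordinate at each point. -/
def sec (a i : ℕ) (g : G) (φ : X.M → S) (γ : G) (p : X.M) : S :=
  if (f p).co i (f p).ix * γ = g then σ.mul (X.s (X.fr p) a p) (φ p) else 0

variable (μ : Measure X.M)

/-- `e` is the projection onto the graph of `D⁺`: for all test sections, it fixes `ψ + D ψ` if `ψ`
is positive and kills `ψ - D ψ` if `ψ` is negative. -/
def IsGraph (e : Op G (L2 S μ)) : Prop :=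
  ∀ a i g (ψ : X.M → S), IsTest E ψ (X.U a ∩ {p | (f p).t i ≠ 0}) →
    let P : X.M → S := fun p => (1 / 2 : ℝ) • (ψ p + σ.gr b (ψ p))
    ∃ ξ : V G (L2 S μ), ∀ γ,
      (ξ.ev γ).fn =ᵐ[μ] sec X f σ a i g
        (fun p => ψ p + (X.F a).dirac b σ (fun p => σ.gr b (ψ p)) p) γ ∧
      ((e.app ξ).ev γ).fn =ᵐ[μ] sec X f σ a i g (fun p => P p + (X.F a).dirac b σ P p) γ

/-- `P` is the projection onto the negative spinors. -/
def IsNeg (P : Op G (L2 S μ)) : Prop :=
  ∀ ξ γ, ((P.app ξ).ev γ).fn =ᵐ[μ]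
    fun p => (1 / 2 : ℝ) • ((ξ.ev γ).fn p - σ.gr b ((ξ.ev γ).fn p))

/-- `z` is the index of the equivariant Dirac operator `D⁺` on the `G`-covering of `X` that is
pulled back along `f`. -/
def IsIndexOf [MeasureSpace E] {R : Type} [Ring R] (ρ : R → Op G ℝ) (z : K0 R) : Prop :=
  ∃ μ : Measure X.M, (∀ a, (X.F a).IsVol (X.U a) μ) ∧ ∃ e P : Op G (L2 S μ),
    e ∈ RA G (L2 S μ) ∧ IsGraph b X f σ μ e ∧ IsNeg b X σ μ P ∧ IsInd ρ e P z

end Geo

/-! ### Euclidean space -/

/-- Euclidean space. -/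
def Eu (n : ℕ) : Type := EuclideanSpace ℝ (Fin n)

instance (n : ℕ) : NormedAddCommGroup (Eu n) := PiLp.normedAddCommGroup 2 _

instance (n : ℕ) : InnerProductSpace ℝ (Eu n) := PiLp.innerProductSpace _

instance (n : ℕ) : MeasureSpace (Eu n) :=
  measureSpaceOfInnerProductSpace (E := EuclideanSpace ℝ (Fin n))

/-- The standard basis. -/
def bv {n : ℕ} (i : Fin n) : Eu n := EuclideanSpace.single i 1

/-- The coordinates. -/
def Eu.co {n : ℕ} (v : Eu n) : Fin n → ℝ := WithLp.ofLp v

/-- The isometric inclusion of Euclidean spaces along an injection of the coordinates. -/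
def inc {p n : ℕ} (f : Fin p ↪ Fin n) : (Qn (Eu p)).Isometry (Qn (Eu n)) where
  toFun v := ∑ i, v.co i • bv (f i)
  map_add' u v := by
    have h : ∀ i, (u + v).co i = u.co i + v.co i := fun _ => rfl
    simp only [h, add_smul, Finset.sum_add_distrib]
  map_smul' r v := by
    have h : ∀ i, (r • v).co i = r * v.co i := fun _ => rfl
    simp only [h, Finset.smul_sum, smul_smul, RingHom.id_apply]
  map_app' v := by
    have h : Orthonormal ℝ fun i => bv (f i) :=
      (EuclideanSpace.orthonormal_single (𝕜 := ℝ)).comp f f.injective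
    have := h.inner_sum v.co v.co Finset.univ
    simp only [Qn, _root_.neg_apply, LinearMap.BilinMap.toQuadraticMap_apply, innerₗ_apply_apply]
    rw [this]
    exact congrArg Neg.neg (Finset.sum_congr rfl fun i _ => by
      change _ = ⟪v.co i, v.co i⟫_ℝ
      simp [sq])

/-- The first `p` coordinates. -/
def il {p q n : ℕ} (h : p + q = n) : Fin p ↪ Fin n :=
  (Fin.castAddEmb q).trans (finCongr h).toEmbedding

/-- The last `q` coordinates. -/
def ir {p q n : ℕ} (h : p + q = n) : Fin q ↪ Fin n :=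
  (Fin.natAddEmb p).trans (finCongr h).toEmbedding

/-- On the open set `O`, the map `ψ` is an isometric spin embedding of the product `X × Y`. -/
def IsProd {p q n : ℕ} (h : p + q = n) (X : SM (Eu p)) (Y : SM (Eu q)) (Z : SM (Eu n))
    (ψ : X.M × Y.M → Z.M) (O : Set (X.M × Y.M)) : Prop :=
  IsProdOf (inc (il h)) (inc (ir h)) X Y Z ψ O

/-- The coordinate of the line. -/
def tc (t : Eu 1) : ℝ := t.co 0

/-- A compact spin manifold `L` of dimension `m + 1` with boundary `N` and a map to `BG`, recorded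
with a half cylinder attached: the metric is a product on the collar `0 < t ≤ 1`, the boundary is
`t = 1`, `L` is the complement of `t > 1`, and the map does not depend on `t ≥ 1`. -/
structure Sing (G : Type) [Group G] (m : ℕ) where
  X : SM (Eu (m + 1))
  N : SM (Eu m)
  j : N.M × Eu 1 → X.M
  f : X.M → BG G
  cpt : CompactSpace N.M
  prod : IsProd rfl N (flat (Eu 1)) X j {z | 0 < tc z.2}
  core_cpt : IsCompact (j '' {z | 1 < tc z.2})ᶜ
  closed : IsClosed (j '' {z | 1 ≤ tc z.2})
  cont : Continuous f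
  cyl : ∀ y t, 1 ≤ tc t → f (j (y, t)) = f (j (y, bv 0))

variable {G : Type} [Group G] {m N : ℕ}

/-- The boundary has positive scalar curvature. -/
def Sing.Psc (x : Sing G m) : Prop := ∀ y, 0 < x.N.scal bv y

variable (G) in
/-- The real reduced group C*-algebra. -/
def Cr : Type := RA G ℝ

instance : Ring (Cr G) := Subalgebra.toRing _

/-- `z` is the higher index of the equivariant Dirac operator `D⁺` on the covering of the manifold
with the cylinder attached. -/
def Sing.IsIndex (x : Sing G m) (σ : Spinor (Eu (m + 1)) (Eu N)) (z : K0 (Cr G)) : Prop :=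
  IsIndexOf bv x.X x.f σ (R := Cr G) Subtype.val z

end Pool.Agent.Lib.SZ
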