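import Pool.Agent.Lib.SZ.Bridge
import Pool.Agent.Lib.RQ.Wrap

/-! The final statement in compact form. -/

noncomputable section

namespace Pool.Agent.Lib.SZ

theorem final_of (h : RQ.St_FINAL) : ∃ (G : Type) (_ : Group G), Group.FG G ∧
    (∀ (k : ℕ) (x : Sing G (8 * k + 7)), x.Psc →
      ∃! z, ∃ S : Spinor (Eu (8 * k + 7 + 1)) (Eu (16 ^ (k + 1))), x.IsIndex S z) ∧
    ∃ z : K0 (Cr G), z ∉ AddSubgroup.closure
      {w | ∃ (k : ℕ) (x : Sing G (8 * k + 7)), x.Psc ∧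
        ∃ S : Spinor (Eu (8 * k + 7 + 1)) (Eu (16 ^ (k + 1))), x.IsIndex S w} := by
  obtain ⟨G, _, h1, h2, z, h3⟩ := h
  refine ⟨G, _, h1, transport (fun A => (∀ (k : ℕ) (x : Sing G (8 * k + 7)), x.Psc →
      ∃! z : K0 A, ∃ S : Spinor (Eu (8 * k + 7 + 1)) (Eu (16 ^ (k + 1))),
        IsIndexOf bv x.X x.f S (R := A) Subtype.val z) ∧
    ∃ z : K0 A, z ∉ AddSubgroup.closure
      {w | ∃ (k : ℕ) (x : Sing G (8 * k + 7)), x.Psc ∧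
        ∃ S : Spinor (Eu (8 * k + 7 + 1)) (Eu (16 ^ (k + 1))),
          IsIndexOf bv x.X x.f S (R := A) Subtype.val w}) ⟨fun k x hx => ?_, z, fun hz => h3 ?_⟩⟩
  · obtain ⟨w, ⟨S, hS⟩, hu⟩ := h2 k (toSing x) ((psc_iff x).1 hx)
    exact ⟨w, ⟨ofSp S, (isIndexOf_iff x (ofSp S) w).2 hS⟩,
      fun w' ⟨S', hS'⟩ => hu w' ⟨toSp S', (isIndexOf_iff x S' w').1 hS'⟩⟩
  · refine AddSubgroup.closure_mono (G := BCH.K0 (CX.Cr G)) ?_ hz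
    rintro w ⟨k, x, hx, S, hS⟩
    exact ⟨k, toSing x, (psc_iff x).1 hx, toSp S, (isIndexOf_iff x S w).1 hS⟩

end Pool.Agent.Lib.SZ
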